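import Pool.Agent.Y152.RP.Stm

set_option autoImplicit false

namespace Pool.Agent.Y281.RP

open Polynomial Finset

theorem pars : Pool.Agent.Y152.RP.ParsStm := by
  intro N S hN hS
  have hn0 : N ≠ 0 := hN.ne'
  have hnorm : ∀ w ∈ S, ‖w‖ = 1 := fun w hw => Complex.norm_eq_one_of_pow_eq_one (hS w hw) hn0
  have hne : ∀ w ∈ S, w ≠ 0 := by
    intro w hw h
    have := hnorm w hw
    rw [h, norm_zero] at this
    norm_num at this
  have hconj : ∀ w ∈ S, (starRingEnd ℂ) w = w⁻¹ := by
    intro w hw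
    exact (Complex.inv_eq_conj (hnorm w hw)).symm
  have hgeo : ∀ w ∈ S, ∀ w' ∈ S, ∑ j ∈ range N, w ^ j * (w'⁻¹) ^ j = if w = w' then (N : ℂ) else 0 := by
    intro w hw w' hw'
    have h1 : ∀ j, w ^ j * (w'⁻¹) ^ j = (w * w'⁻¹) ^ j := fun j => (mul_pow _ _ _).symm
    simp only [h1]
    split_ifs with h
    · subst h
      rw [mul_inv_cancel₀ (hne w hw)]
      simp
    · have hx : w * w'⁻¹ ≠ 1 := by
        intro h2
        apply h
        rw [mul_inv_eq_one₀ (hne w' hw')] at h2
        exact h2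
      rw [geom_sum_eq hx, mul_pow, hS w hw, inv_pow, hS w' hw']
      simp
  have hmain : ((∑ j ∈ range N, ‖∑ w ∈ S, w ^ j‖ ^ 2 : ℝ) : ℂ) = ((N : ℝ) * S.card : ℝ) := by
    push_cast
    have h1 : ∀ j ∈ range N, ((‖∑ w ∈ S, w ^ j‖ : ℂ)) ^ 2
        = ∑ w ∈ S, ∑ w' ∈ S, w ^ j * (w'⁻¹) ^ j := by
      intro j _
      rw [← Complex.mul_conj', map_sum, Finset.sum_mul_sum]
      refine Finset.sum_congr rfl fun w _ => Finset.sum_congr rfl fun w' hw' => ?_
      rw [map_pow, hconj w' hw']
    rw [Finset.sum_congr rfl h1, Finset.sum_comm]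
    have h2 : ∀ w ∈ S, ∑ j ∈ range N, ∑ w' ∈ S, w ^ j * (w'⁻¹) ^ j = (N : ℂ) := by
      intro w hw
      rw [Finset.sum_comm]
      rw [Finset.sum_congr rfl (fun w' hw' => hgeo w hw w' hw')]
      simp [hw]
    rw [Finset.sum_congr rfl h2]
    simp [mul_comm]
  exact_mod_cast hmain

theorem pow (hA : Pool.Agent.Y152.RP.PowAStm) : Pool.Agent.Y152.RP.PowStm := by
  intro n ω τ q hn hω hq hτ H hH hHτ
  obtain ⟨h1, h2, h3, h4, h5, h6⟩ := hA n ω τ q hn hω hq hτ H hH hHτ
  set R := (H.aroots ℂ).toFinset with hR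
  have hqR : (0 : ℝ) < (q : ℝ) := by exact_mod_cast hq
  have hz2 : ∀ z ∈ R, ‖z‖ ^ 2 = (q : ℝ) := by
    intro z hz
    obtain ⟨ω', hω', hz'⟩ := h4 z hz
    have : ‖ω'‖ = 1 := Complex.norm_eq_one_of_pow_eq_one hω'.pow_eq_one hn.ne'
    rw [← norm_pow, hz', norm_mul, this, one_mul]
    have : ((q : ℚ) : ℂ) = ((q : ℝ) : ℂ) := by push_cast; rfl
    rw [this, Complex.norm_real, Real.norm_of_nonneg hqR.le]
  set s := Real.sqrt q with hs
  have hs0 : 0 < s := Real.sqrt_pos.2 hqR
  have hss : s ^ 2 = (q : ℝ) := Real.sq_sqrt hqR.le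
  have hsC : (s : ℂ) ≠ 0 := by exact_mod_cast hs0.ne'
  -- Parseval
  have hinj : Set.InjOn (fun z : ℂ => z / (s : ℂ)) (R : Set ℂ) := by
    intro a _ b _ hab
    simpa [div_left_inj' hsC] using hab
  have hP := pars (2 * n) (R.image fun z => z / (s : ℂ)) (by omega) (by
    intro w hw
    obtain ⟨z, hz, rfl⟩ := Finset.mem_image.1 hw
    obtain ⟨ω', hω', hz'⟩ := h4 z hz
    have hsq : (s : ℂ) ^ 2 = (q : ℂ) := by
      have : ((s ^ 2 : ℝ) : ℂ) = ((q : ℝ) : ℂ) := by rw [hss]
      push_cast at this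
      exact this
    rw [pow_mul, div_pow, hz', hsq, mul_div_assoc, div_self, mul_one, hω'.pow_eq_one]
    exact_mod_cast hq.ne')
  rw [Finset.card_image_of_injOn hinj] at hP
  have hsum : ∀ j, ∑ w ∈ R.image (fun z => z / (s : ℂ)), w ^ j = (∑ z ∈ R, z ^ j) / (s : ℂ) ^ j := by
    intro j
    rw [Finset.sum_image (fun a ha b hb h => hinj ha hb h), Finset.sum_div]
    exact Finset.sum_congr rfl fun z _ => div_pow _ _ _
  have hnormdiv : ∀ j, ‖∑ w ∈ R.image (fun z => z / (s : ℂ)), w ^ j‖ = ‖∑ z ∈ R, z ^ j‖ / s ^ j := by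
    intro j
    rw [hsum, norm_div, norm_pow, Complex.norm_real, Real.norm_of_nonneg hs0.le]
  simp only [hnormdiv] at hP
  have hcard : (R.card : ℝ) ≤ 2 * (Nat.totient n : ℝ) := by
    rw [← h3]; exact_mod_cast h2
  have htot : 0 < Nat.totient n := Nat.totient_pos.2 hn
  have htotR : (0 : ℝ) < (Nat.totient n : ℝ) := by exact_mod_cast htot
  have hnR : (0 : ℝ) < (n : ℝ) := by exact_mod_cast hn
  have hbound : ∑ j ∈ range (2 * n), (‖∑ z ∈ R, z ^ j‖ / s ^ j) ^ 2 ≤ 4 * n * Nat.totient n := by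
    rw [hP]
    push_cast
    nlinarith
  refine ⟨h1, h3, hz2, ?_, ?_⟩
  · -- first power sum
    set F := ‖∑ z ∈ R, z‖ / s with hF
    have hF0 : 0 ≤ F := by positivity
    have hle : (Nat.totient n : ℝ) * F ^ 2 ≤ 4 * n * Nat.totient n := by
      have ha : (Nat.totient n : ℝ) ≤ (Nat.totient (2 * n) : ℝ) := by
        exact_mod_cast Nat.le_of_dvd (Nat.totient_pos.2 (by omega))
          (Nat.totient_dvd_of_dvd (Dvd.intro_left 2 rfl))
      have hb : (Nat.totient (2 * n) : ℝ) * F ^ 2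
          ≤ ∑ j ∈ range (2 * n), (‖∑ z ∈ R, z ^ j‖ / s ^ j) ^ 2 := by
        rw [Nat.totient_eq_card_coprime]
        have hc : ∑ j ∈ (range (2 * n)).filter (Nat.Coprime (2 * n)), (‖∑ z ∈ R, z ^ j‖ / s ^ j) ^ 2
            = (((range (2 * n)).filter (Nat.Coprime (2 * n))).card : ℝ) * F ^ 2 := by
          rw [Finset.sum_congr rfl (g := fun _ => F ^ 2), Finset.sum_const, nsmul_eq_mul]
          intro j hj
          rw [Finset.mem_filter] at hj
          have hj0 : 0 < j := by
            rcases Nat.eq_zero_or_pos j with h | h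
            · rw [h] at hj
              have := hj.2
              rw [Nat.coprime_zero_right] at this
              omega
            · exact h
          rw [h5 j hj0 hj.2.symm, hF]
          congr 1
          obtain ⟨k, rfl⟩ := Nat.exists_eq_succ_of_ne_zero hj0.ne'
          rw [Nat.succ_eq_add_one, Nat.add_sub_cancel, pow_succ, mul_comm (s ^ k),
            mul_comm (s ^ k) s, mul_div_mul_right _ _ (pow_pos hs0 k).ne']
        rw [← hc]
        exact Finset.sum_le_sum_of_subset_of_nonneg (Finset.filter_subset _ _)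
          (fun _ _ _ => by positivity)
      nlinarith [sq_nonneg F]
    have hF2 : F ^ 2 ≤ 4 * n := by
      have : (Nat.totient n : ℝ) * F ^ 2 ≤ (Nat.totient n : ℝ) * (4 * n) := by linarith
      exact le_of_mul_le_mul_left this htotR
    have hF3 : F ≤ 2 * Real.sqrt n := by
      have h7 : (2 * Real.sqrt n) ^ 2 = 4 * n := by
        rw [mul_pow, Real.sq_sqrt hnR.le]; norm_num
      exact (sq_le_sq₀ hF0 (by positivity)).1 (by rw [h7]; exact hF2)
    calc ‖∑ z ∈ R, z‖ = F * s := by rw [hF, div_mul_cancel₀ _ hs0.ne']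
      _ ≤ 2 * Real.sqrt n * s := by gcongr
  · -- second power sum
    rcases Nat.lt_or_ge 1 n with hn1 | hn1
    · set F := ‖∑ z ∈ R, z ^ 2‖ / (q : ℝ) with hF
      have hF0 : 0 ≤ F := by positivity
      have hle : (Nat.totient n : ℝ) * F ^ 2 ≤ 4 * n * Nat.totient n := by
        have hb : (Nat.totient n : ℝ) * F ^ 2
            ≤ ∑ j ∈ range (2 * n), (‖∑ z ∈ R, z ^ j‖ / s ^ j) ^ 2 := by
          rw [Nat.totient_eq_card_coprime]
          have hc : ∑ j ∈ ((range n).filter (Nat.Coprime n)).image (fun j => 2 * j),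
              (‖∑ z ∈ R, z ^ j‖ / s ^ j) ^ 2
              = (((range n).filter (Nat.Coprime n)).card : ℝ) * F ^ 2 := by
            rw [Finset.sum_image (fun a _ b _ h => by simpa using h)]
            rw [Finset.sum_congr rfl (g := fun _ => F ^ 2), Finset.sum_const, nsmul_eq_mul]
            intro j hj
            rw [Finset.mem_filter] at hj
            have hj0 : 0 < j := by
              rcases Nat.eq_zero_or_pos j with h | h
              · rw [h] at hj
                have := hj.2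
                rw [Nat.coprime_zero_right] at this
                omega
              · exact h
            rw [h6 j hj0 hj.2.symm, hF]
            congr 1
            obtain ⟨k, rfl⟩ := Nat.exists_eq_succ_of_ne_zero hj0.ne'
            rw [Nat.succ_eq_add_one, Nat.add_sub_cancel, pow_mul, hss, pow_succ,
              mul_comm ((q : ℝ) ^ k), mul_comm ((q : ℝ) ^ k) (q : ℝ),
              mul_div_mul_right _ _ (pow_pos hqR k).ne']
          rw [← hc]
          refine Finset.sum_le_sum_of_subset_of_nonneg ?_ (fun _ _ _ => by positivity)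
          intro j hj
          obtain ⟨i, hi, rfl⟩ := Finset.mem_image.1 hj
          rw [Finset.mem_filter, Finset.mem_range] at hi
          rw [Finset.mem_range]
          show 2 * i < 2 * n
          omega
        linarith
      have hF2 : F ^ 2 ≤ 4 * n := by
        have : (Nat.totient n : ℝ) * F ^ 2 ≤ (Nat.totient n : ℝ) * (4 * n) := by linarith
        exact le_of_mul_le_mul_left this htotR
      have hF3 : F ≤ 2 * Real.sqrt n := by
        have h7 : (2 * Real.sqrt n) ^ 2 = 4 * n := by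
          rw [mul_pow, Real.sq_sqrt hnR.le]; norm_num
        exact (sq_le_sq₀ hF0 (by positivity)).1 (by rw [h7]; exact hF2)
      calc ‖∑ z ∈ R, z ^ 2‖ = F * (q : ℝ) := by rw [hF, div_mul_cancel₀ _ hqR.ne']
        _ ≤ 2 * Real.sqrt n * (q : ℝ) := by gcongr
    · have hn1' : n = 1 := by omega
      subst hn1'
      have hc : (R.card : ℝ) ≤ 2 := by simpa using hcard
      calc ‖∑ z ∈ R, z ^ 2‖ ≤ ∑ z ∈ R, ‖z ^ 2‖ := norm_sum_le _ _
        _ = ∑ z ∈ R, (q : ℝ) := Finset.sum_congr rfl fun z hz => by rw [norm_pow, hz2 z hz]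
        _ = R.card * (q : ℝ) := by rw [Finset.sum_const, nsmul_eq_mul]
        _ ≤ 2 * (q : ℝ) := by gcongr
        _ = 2 * Real.sqrt ((1 : ℕ) : ℝ) * (q : ℝ) := by simp

end Pool.Agent.Y281.RP
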